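import Mathlib
import Pool.Agent.Q261.DR.Apply

set_option autoImplicit false

/-!
# Montgomery's large value conjecture for almost all additive twists, `T ≤ N^(2σ)`

For every `D(t) = ∑_{N ≤ n ≤ 2N} b_n n^{it}` with `|b_n| ≤ 1` and every modulus `m`, all but at most
`m N^(-ε/3)` of the `m` twisted polynomials `∑ b_n e(an/m) n^{it}`, `a mod m`, satisfy
`|W| ≤ C N^ε (N/V)² max(1, T/V²)` simultaneously for all `T` with `max(N, N²/m) ≤ T ≤ N²`, all `V > 0`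
and all sets `W` of integers in `[0,T]` at which the twisted polynomial exceeds `V`. For `V = N^σ` this is
the conjectured bound `N^(2-2σ+ε)` as long as `T ≤ N^(2σ)`; for all polynomials it is known for
`T ≤ N^(4σ-2)`. The family need only have `N²/T` members.

The proof: the hybrid fourth moment
`∑_{a mod m} ∑_{t ∈ S_a} |D_a(t)|⁴ ≤ C N^(2+ε) (mT + mN + N²)`
(`Pool/Agent/Q261/DR/Sep.lean`), which rests on the count of the solutions of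
`n₁ + n₂ ≡ m₁ + m₂ mod m`, `|n₁n₂ - m₁m₂| ≤ N²/T`.
-/

namespace Pool.Agent.Results.MP_ecd12e_nt.AdditiveTwists

open Finset

/-- `D(t) = ∑_{N ≤ n ≤ 2N} b_n n^{it}` -/
noncomputable def D (N : ℕ) (b : ℕ → ℂ) (t : ℝ) : ℂ :=
  ∑ n ∈ Icc N (2 * N), b n * Complex.exp (Complex.I * (t : ℂ) * (Real.log (n : ℝ) : ℂ))

/-- the coefficients `b_n e(an/m)`, `e(x) = exp(2πix)` -/
noncomputable def twist (m a : ℕ) (b : ℕ → ℂ) (n : ℕ) : ℂ :=
  b n * Complex.exp (2 * Real.pi * Complex.I * ((a : ℂ) * n / m))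

/-- the large value bound for all `T` with `N ≤ T ≤ N²`, `N² ≤ m T`, all `V > 0` and all `W` -/
def LargeValues (C ε : ℝ) (N m : ℕ) (b : ℕ → ℂ) : Prop :=
  ∀ T : ℝ, (N : ℝ) ≤ T → T ≤ (N : ℝ) ^ 2 → (N : ℝ) ^ 2 ≤ m * T → ∀ V : ℝ, 0 < V → ∀ W : Finset ℤ,
    (∀ t ∈ W, 0 ≤ (t : ℝ) ∧ (t : ℝ) ≤ T ∧ V < ‖D N b t‖) →
    (W.card : ℝ) ≤ C * (N : ℝ) ^ ε * (N / V) ^ 2 * max 1 (T / V ^ 2)

/-- **Main theorem.** -/
theorem result (ε : ℝ) (hε : 0 < ε) : ∃ C : ℝ, ∀ N m : ℕ, 1 ≤ N → 1 ≤ m →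
    ∀ b : ℕ → ℂ, (∀ n, ‖b n‖ ≤ 1) → ∃ B : Finset ℕ, B ⊆ range m ∧ (B.card : ℝ) ≤ m * (N : ℝ) ^ (-(ε / 3)) ∧
      ∀ a ∈ range m, a ∉ B → LargeValues C ε N m (twist m a b) := by
  classical
  obtain ⟨C, hC, hfour⟩ := Pool.Agent.Q261.DR.fourth ε hε
  refine ⟨C, ?_⟩
  intro N m hN hm b hb
  have hsub : Icc N (2 * N) ⊆ Icc 1 (2 * N) := Icc_subset_Icc_left hN
  obtain ⟨B, hB1, hB2, hB3⟩ := hfour N m hN hm (Icc N (2 * N)) hsub b hb
  refine ⟨B, hB1, hB2, ?_⟩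
  intro a ha haB T hT1 hT2 hmT V hV W hW
  have hNr : (1 : ℝ) ≤ N := by exact_mod_cast hN
  have hN0 : (0 : ℝ) < N := by linarith
  have hT0 : (0 : ℝ) < T := by linarith
  have hinj : Function.Injective (fun t : ℤ => (t : ℝ)) := Int.cast_injective
  have h1 := hB3 a ha haB T hT1 hT2 hmT (W.image (fun t : ℤ => (t : ℝ))) (by
    intro t ht
    obtain ⟨t0, ht0, rfl⟩ := mem_image.1 ht
    exact ⟨(hW t0 ht0).1, (hW t0 ht0).2.1⟩) (by
    intro t ht u hu htu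
    obtain ⟨t0, ht0, rfl⟩ := mem_image.1 ht
    obtain ⟨u0, hu0, rfl⟩ := mem_image.1 hu
    have h1 : t0 - u0 ≠ 0 := by
      intro h
      apply htu
      have : t0 = u0 := by omega
      rw [this]
    have h2 := Int.one_le_abs h1
    have h3 : ((1 : ℤ) : ℝ) ≤ ((|t0 - u0| : ℤ) : ℝ) := by exact_mod_cast h2
    push_cast at h3
    exact h3)
  rw [sum_image (fun x _ y _ h => hinj h)] at h1
  have h2 : (W.card : ℝ) * V ^ 4 ≤ C * (N : ℝ) ^ ε * ((N : ℝ) ^ 2 * T) := by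
    refine le_trans ?_ h1
    rw [← nsmul_eq_mul]
    apply card_nsmul_le_sum
    intro t ht
    have h3 : V < ‖Pool.Agent.Q261.DR.TW (Icc N (2 * N)) m a b (t : ℝ)‖ := (hW t ht).2.2
    exact pow_le_pow_left₀ hV.le h3.le 4
  have h3 : (W.card : ℝ) ≤ C * (N : ℝ) ^ ε * (N / V) ^ 2 * (T / V ^ 2) := by
    have h4 : C * (N : ℝ) ^ ε * (N / V) ^ 2 * (T / V ^ 2) = C * (N : ℝ) ^ ε * ((N : ℝ) ^ 2 * T) / V ^ 4 := by
      field_simp
    rw [h4, le_div_iff₀ (by positivity)]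
    exact h2
  refine h3.trans ?_
  apply mul_le_mul_of_nonneg_left (le_max_right _ _)
  positivity

end Pool.Agent.Results.MP_ecd12e_nt.AdditiveTwists
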