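import Mathlib
import Pool.Agent.Q261.DQ.Final

set_option autoImplicit false

/-!
# How much can the bound `|b_n| ≤ 1` in Montgomery's large value conjecture be relaxed?

Bourgain showed that the statement of Q1 is false if `|b_n| ≤ 1` is replaced by `∑ |b_n|² ≤ N`, with some
coefficients much larger than `1`. We show that with `∑ |b_n|² ≤ N` it is false, for every `σ` between
`1/2` and `3/4`, even if `|b_n| ≤ N^λ` for any `λ > σ - 1/2`, and even for `T ≤ N^(1+δ)` (for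
`T ≤ N^(1+o(1))` it is true). In particular for every `δ > 0` it is false, for some `σ > 1/2`, with
`|b_n| ≤ N^δ`. (For `σ > 3/4` and `T < N^(4σ-2)` the statement is true with `∑ |b_n|² ≤ N` alone, by
Halász and Montgomery.)

The polynomials have coefficients `0`, `β`, `-β`; the support is the set of the `n = s (m + j) + a` with
`S ≤ s < 2 S`, `0 ≤ a < s`, `0 ≤ j ≤ J`, and the sign depends only on `(s, a)`. For the integers `t`
for which `t / (2 π m)` is within `1 / (16 (J + 1))` of an integer the terms of each progression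
`s (m + j) + a`, `j ≤ J`, have nearly the same argument, so that `|D(t)|²` is on average at least
`J/16` times `∑ |b_n|²`.
-/

namespace Pool.Agent.Results.MP_ecd12e_nt.NormalizationThreshold

open Finset Filter

/-- `D(t) = ∑_{N ≤ n ≤ 2N} b_n n^{it}` -/
noncomputable def D (N : ℕ) (b : ℕ → ℂ) (t : ℝ) : ℂ :=
  ∑ n ∈ Icc N (2 * N), b n * Complex.exp (((t * Real.log n : ℝ) : ℂ) * Complex.I)

/-- For some `ε > 0` and all large `N` there are coefficients with `|b_n| ≤ N^lam`, `∑ |b_n|² ≤ N` and a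
set `W` of at least `N^(2-2σ+ε)` integers of `[0, N^A]` with `|D| > N^σ` on `W`. -/
def Fails (σ lam A : ℝ) : Prop :=
  ∃ ε : ℝ, 0 < ε ∧ ∀ᶠ N : ℕ in atTop, ∃ b : ℕ → ℂ, (∀ n, ‖b n‖ ≤ (N : ℝ) ^ lam) ∧
    ∑ n ∈ Icc N (2 * N), ‖b n‖ ^ 2 ≤ N ∧ ∃ W : Finset ℤ,
      (∀ t ∈ W, 0 ≤ (t : ℝ) ∧ (t : ℝ) ≤ (N : ℝ) ^ A ∧ (N : ℝ) ^ σ < ‖D N b t‖) ∧
      (N : ℝ) ^ (2 - 2 * σ + ε) ≤ W.card

/-- **Main theorem.** -/
theorem result :
    (∀ σ lam δ : ℝ, 1 / 2 < σ → σ < 3 / 4 → σ - 1 / 2 < lam → 0 < δ → Fails σ lam (1 + δ)) ∧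
    (∀ δ : ℝ, 0 < δ → ∃ σ : ℝ, 1 / 2 < σ ∧ Fails σ δ (1 + δ)) := by
  classical
  have main : ∀ σ lam δ : ℝ, 1 / 2 < σ → σ < 3 / 4 → σ - 1 / 2 < lam → 0 < δ → Fails σ lam (1 + δ) := by
    intro σ lam δ hσ hσ2 hlam hδ
    obtain ⟨ν, hν⟩ : ∃ ν : ℝ, ν = min (min ((3 / 2 - 2 * σ) / 4) ((lam - (σ - 1 / 2)) / 2)) (δ / 2) :=
      ⟨_, rfl⟩
    have hν0 : 0 < ν := by
      rw [hν]
      apply lt_min (lt_min _ _) <;> linarith
    have hν1 : ν ≤ (3 / 2 - 2 * σ) / 4 := by rw [hν]; exact (min_le_left _ _).trans (min_le_left _ _)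
    have hν2 : ν ≤ (lam - (σ - 1 / 2)) / 2 := by rw [hν]; exact (min_le_left _ _).trans (min_le_right _ _)
    have hν3 : ν ≤ δ / 2 := by rw [hν]; exact min_le_right _ _
    have h := Pool.Agent.Q261.DQ.params (2 * σ - 1 + ν) (2 * ν) lam (by linarith) (by linarith)
      (by linarith) (by linarith)
    refine ⟨ν / 2, by positivity, ?_⟩
    filter_upwards [h, Pool.Agent.Q261.DQ.ev_pow 49 ν hν0, Pool.Agent.Q261.DQ.ev_pow 2400 (ν / 2) (by positivity),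
      eventually_ge_atTop 1] with N hN e1 e2 hN1
    obtain ⟨b, W, hb1, hb2, hW1, hW2⟩ := hN
    have hNr : (1 : ℝ) ≤ N := by exact_mod_cast hN1
    have hN0 : (0 : ℝ) < N := by linarith
    have pw : ∀ a b : ℝ, (N : ℝ) ^ a * (N : ℝ) ^ b = (N : ℝ) ^ (a + b) := fun a b =>
      (Real.rpow_add hN0 a b).symm
    have pos : ∀ a : ℝ, 0 < (N : ℝ) ^ a := fun a => Real.rpow_pos_of_pos hN0 a
    have hTle : (⌊(N : ℝ) ^ (1 + 2 * ν)⌋₊ : ℝ) ≤ (N : ℝ) ^ (1 + 2 * ν) := Nat.floor_le (pos _).le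
    have hTge : (N : ℝ) ^ (1 + 2 * ν) ≤ 2 * (⌊(N : ℝ) ^ (1 + 2 * ν)⌋₊ : ℝ) := by
      have h3 := Nat.lt_floor_add_one ((N : ℝ) ^ (1 + 2 * ν))
      have h4 : 1 ≤ ⌊(N : ℝ) ^ (1 + 2 * ν)⌋₊ := by
        apply Nat.le_floor
        rw [Nat.cast_one]
        have := Real.rpow_le_rpow_of_exponent_le hNr (show (0 : ℝ) ≤ 1 + 2 * ν by linarith)
        rwa [Real.rpow_zero] at this
      have h5 : (1 : ℝ) ≤ (⌊(N : ℝ) ^ (1 + 2 * ν)⌋₊ : ℝ) := by exact_mod_cast h4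
      linarith
    refine ⟨fun n => (b n : ℂ), fun n => ?_, ?_, W.image (fun t : ℕ => (t : ℤ)), ?_, ?_⟩
    · rw [Complex.norm_real, Real.norm_eq_abs]
      exact hb1 n
    · refine le_trans (le_of_eq ?_) hb2
      apply sum_congr rfl
      intro n _
      rw [Complex.norm_real, Real.norm_eq_abs, sq_abs]
    · intro t ht
      rw [mem_image] at ht
      obtain ⟨x, hx, rfl⟩ := ht
      obtain ⟨_, h3, h4⟩ := hW1 x hx
      have h5 : (x : ℝ) ≤ (N : ℝ) ^ (1 + δ) := by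
        calc (x : ℝ) ≤ (⌊(N : ℝ) ^ (1 + 2 * ν)⌋₊ : ℝ) := by exact_mod_cast h3
          _ ≤ (N : ℝ) ^ (1 + 2 * ν) := hTle
          _ ≤ _ := Real.rpow_le_rpow_of_exponent_le hNr (by linarith)
      refine ⟨by positivity, by simpa using h5, ?_⟩
      have e : D N (fun n => (b n : ℂ)) (((x : ℕ) : ℤ) : ℝ) =
          ∑ n ∈ Icc N (2 * N), (b n : ℂ) * Pool.Agent.Q261.DP.ph (x : ℝ) n := by
        unfold D Pool.Agent.Q261.DP.ph
        simp
      rw [e]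
      have h6 : ((N : ℝ) ^ σ) ^ 2 < ‖∑ n ∈ Icc N (2 * N), (b n : ℂ) * Pool.Agent.Q261.DP.ph (x : ℝ) n‖ ^ 2 := by
        refine lt_of_lt_of_le ?_ h4
        have h7 : ((N : ℝ) ^ σ) ^ 2 = (N : ℝ) ^ (2 * σ) := by
          rw [← Real.rpow_natCast, ← Real.rpow_mul hN0.le]
          congr 1
          push_cast
          ring
        rw [h7, lt_div_iff₀ (by norm_num)]
        have h8 : (N : ℝ) ^ (1 + (2 * σ - 1 + ν)) = (N : ℝ) ^ (2 * σ) * (N : ℝ) ^ ν := by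
          rw [pw]; congr 1; ring
        rw [h8]
        have := pos (2 * σ)
        nlinarith
      exact lt_of_pow_lt_pow_left₀ 2 (norm_nonneg _) h6
    · rw [card_image_of_injective _ Nat.cast_injective]
      have h3 : (N : ℝ) ^ (1 + 2 * ν) ≤ 2400 * ((N : ℝ) ^ (2 * σ - 1 + ν) * W.card) := by linarith
      have h4 : (N : ℝ) ^ (1 + 2 * ν) = (N : ℝ) ^ (2 - 2 * σ + ν) * (N : ℝ) ^ (2 * σ - 1 + ν) := by
        rw [pw]; congr 1; ring
      have h5 : (N : ℝ) ^ (2 - 2 * σ + ν) ≤ 2400 * W.card := by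
        rw [h4] at h3
        have h6 : (N : ℝ) ^ (2 - 2 * σ + ν) * (N : ℝ) ^ (2 * σ - 1 + ν) ≤
            2400 * W.card * (N : ℝ) ^ (2 * σ - 1 + ν) := by linarith
        exact le_of_mul_le_mul_right h6 (pos _)
      have h6 : (N : ℝ) ^ (2 - 2 * σ + ν / 2) * 2400 ≤ (W.card : ℝ) * 2400 := by
        calc (N : ℝ) ^ (2 - 2 * σ + ν / 2) * 2400 ≤ (N : ℝ) ^ (2 - 2 * σ + ν / 2) * (N : ℝ) ^ (ν / 2) := by
              gcongr
          _ = (N : ℝ) ^ (2 - 2 * σ + ν) := by rw [pw]; congr 1; ring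
          _ ≤ _ := by linarith
      exact le_of_mul_le_mul_right h6 (by norm_num)
  refine ⟨main, ?_⟩
  intro δ hδ
  have h1 : 0 < min (δ / 2) (1 / 8) := lt_min (by positivity) (by norm_num)
  have h2 := min_le_left (δ / 2) (1 / 8)
  have h3 := min_le_right (δ / 2) (1 / 8)
  exact ⟨1 / 2 + min (δ / 2) (1 / 8), by linarith,
    main _ _ _ (by linarith) (by linarith) (by linarith) hδ⟩

end Pool.Agent.Results.MP_ecd12e_nt.NormalizationThreshold
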