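import Pool.Agent.Q93.DP.Ind
import Pool.Agent.Q93.DP.Dy
import Pool.Agent.Q93.DP.LV

/-!
# Montgomery's large value conjecture and fixed sets of integers

For a set `E` of positive integers let `D(t) = ∑_{n ∈ E, N ≤ n ≤ 2N} n^{it}`: one fixed set for all
lengths `N`, coefficients zero and one. We say that the conjecture holds along `E` if its bound
holds for these polynomials, with constants depending on `E`.

(1) The conjecture (all coefficients of modulus at most one, which may change with `N`) holds if and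
only if it holds along every set `E`, if and only if it holds along the sets `E` of a family which is
not meagre, if and only if the family of the sets along which it fails has Hausdorff dimension
less than one in the Cantor space. The same for every fixed exponent `A` of the range `T ≤ N ^ A`.

(2) In contrast, for almost all sets `E` the conjecture holds along `E` if and only if it holds for
the zeta sums `∑_{N ≤ n ≤ 2N} n^{it}`. More generally, for independent coefficients `X_n` of modulus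
at most one, almost surely it holds along `X` if and only if it holds along the means `E X_n`.

(3) For every single sequence the large value bound for all `σ > 1/2` is equivalent to the mean square
bound `∑_{t ∈ W} |D(t)|² ≤ C N^ε (N² + |W| N)` for all sets `W` of integers in `[0, T]`.
-/

set_option autoImplicit false

namespace Pool.Agent.Results.MP_ecd12e_nt.SetsOfIntegers

open MeasureTheory ProbabilityTheory

attribute [local instance] PiNat.metricSpace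

/-- `D(t) = ∑_{N ≤ n ≤ 2N} b_n n^{it}` -/
noncomputable def D (b : ℕ → ℂ) (N : ℕ) (t : ℝ) : ℂ :=
  ∑ n ∈ Finset.Icc N (2 * N), b n * Complex.exp ((((t:ℝ) * Real.log (n:ℝ) : ℝ) : ℂ) * Complex.I)

/-- `W` is a set of integers in `[0, T]` for some `T` with `N ≤ T ≤ N ^ A` -/
def Admissible (A : ℝ) (N : ℕ) (W : Finset ℤ) : Prop :=
  1 ≤ N ∧ ∃ T : ℝ, (N : ℝ) ≤ T ∧ T ≤ (N : ℝ) ^ A ∧ ∀ t ∈ W, 0 ≤ (t : ℝ) ∧ (t : ℝ) ≤ T

/-- the large value bound of the conjecture -/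
def LargeValues (A σ ε C : ℝ) (b : ℕ → ℂ) : Prop :=
  ∀ (N : ℕ) (W : Finset ℤ), Admissible A N W → (∀ t ∈ W, (N : ℝ) ^ σ < ‖D b N t‖) →
    (W.card : ℝ) ≤ C * (N : ℝ) ^ (2 - 2 * σ + ε)

/-- the conjecture for `T ≤ N ^ A` -/
def MontgomeryAt (A : ℝ) : Prop :=
  ∀ σ : ℝ, 1 / 2 < σ → ∀ ε : ℝ, 0 < ε → ∃ C : ℝ, ∀ b : ℕ → ℂ, (∀ n, ‖b n‖ ≤ 1) →
    LargeValues A σ ε C b

/-- Montgomery's conjecture (Q1) -/
def Montgomery : Prop := ∀ A : ℝ, MontgomeryAt A

/-- the conjecture for `T ≤ N ^ A` along a fixed sequence -/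
def AlongAt (A : ℝ) (b : ℕ → ℂ) : Prop :=
  ∀ σ : ℝ, 1 / 2 < σ → ∀ ε : ℝ, 0 < ε → ∃ C : ℝ, LargeValues A σ ε C b

/-- the conjecture along a fixed sequence -/
def Along (b : ℕ → ℂ) : Prop := ∀ A : ℝ, AlongAt A b

/-- the indicator function of the set `E = {n | e n = true}` -/
noncomputable def ind (e : ℕ → Bool) (n : ℕ) : ℂ := if e n then 1 else 0

/-- the mean square bound -/
def MeanSquares (A : ℝ) (b : ℕ → ℂ) : Prop :=
  ∀ ε : ℝ, 0 < ε → ∃ C : ℝ, ∀ (N : ℕ) (W : Finset ℤ), Admissible A N W →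
    ∑ t ∈ W, ‖D b N t‖ ^ 2 ≤ C * ((N : ℝ) ^ ε * ((N : ℝ) ^ 2 + (W.card : ℝ) * (N : ℝ)))

lemma D_eq (b : ℕ → ℂ) (N : ℕ) (t : ℝ) : D b N t = Pool.Agent.Q93.DP.D b N (2 * N) t := by
  unfold D Pool.Agent.Q93.DP.D
  refine Finset.sum_congr rfl fun n _ => ?_
  congr 2
  push_cast
  ring

lemma D_le (b : ℕ → ℂ) (hb : ∀ n, ‖b n‖ ≤ 1) (N : ℕ) (hN : 1 ≤ N) (t : ℝ) : ‖D b N t‖ ≤ 2 * N := by
  unfold D
  refine (norm_sum_le _ _).trans ?_
  calc _ ≤ ∑ _n ∈ Finset.Icc N (2 * N), (1 : ℝ) := Finset.sum_le_sum fun n _ => by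
        rw [norm_mul, Complex.norm_exp_ofReal_mul_I, mul_one]; exact hb n
    _ = ((2 * N + 1 - N : ℕ) : ℝ) := by rw [Finset.sum_const, Nat.card_Icc, nsmul_eq_mul, mul_one]
    _ ≤ ((2 * N : ℕ) : ℝ) := by exact_mod_cast (by omega : 2 * N + 1 - N ≤ 2 * N)
    _ = 2 * N := by push_cast; ring

lemma card_le {A : ℝ} {N : ℕ} {W : Finset ℤ} (h : Admissible A N W) :
    (W.card : ℝ) ≤ 2 * (N : ℝ) ^ A := by
  obtain ⟨hN, T, hT1, hT2, hW⟩ := h
  have hN1 : (1 : ℝ) ≤ N := by exact_mod_cast hN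
  have hT0 : 0 ≤ T := by linarith
  have hsub : W ⊆ Finset.Icc 0 ⌊T⌋ := by
    intro t ht
    obtain ⟨h1, h2⟩ := hW t ht
    rw [Finset.mem_Icc]
    exact ⟨by exact_mod_cast h1, Int.le_floor.2 h2⟩
  have h1 := Finset.card_le_card hsub
  rw [Int.card_Icc] at h1
  have hf : 0 ≤ ⌊T⌋ := Int.floor_nonneg.2 hT0
  have h2 : (((⌊T⌋ + 1 - 0).toNat : ℕ) : ℝ) = (⌊T⌋ : ℝ) + 1 := by
    have h3 : (((⌊T⌋ + 1 - 0).toNat : ℕ) : ℤ) = ⌊T⌋ + 1 := by
      rw [Int.toNat_of_nonneg (by linarith)]; ring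
    have h4 : ((((⌊T⌋ + 1 - 0).toNat : ℕ) : ℤ) : ℝ) = ((⌊T⌋ + 1 : ℤ) : ℝ) := by rw [h3]
    push_cast at h4
    linarith
  have h3 : (W.card : ℝ) ≤ (⌊T⌋ : ℝ) + 1 := by
    rw [← h2]
    exact_mod_cast h1
  have h4 := Int.floor_le T
  linarith

lemma adm_sub {A : ℝ} {N : ℕ} {W W' : Finset ℤ} (hs : W' ⊆ W) (h : Admissible A N W) :
    Admissible A N W' := by
  obtain ⟨hN, T, hT1, hT2, hW⟩ := h
  exact ⟨hN, T, hT1, hT2, fun t ht => hW t (hs ht)⟩

theorem ms_iff (A : ℝ) (b : ℕ → ℂ) (hb : ∀ n, ‖b n‖ ≤ 1) : AlongAt A b ↔ MeanSquares A b := by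
  constructor
  · intro h
    refine Pool.Agent.Q93.DP.ms_of_lv (ι := ℕ) (F := fun N t => ‖D b N t‖) (N := fun N => N)
      (Ad := Admissible A) (fun N W W' hs hW => adm_sub hs hW) (fun N W hW => hW.1)
      (fun N t => norm_nonneg _) (fun N W hW t => D_le b hb N hW.1 t) ?_
    intro σ hσ ε hε
    exact h σ hσ ε hε
  · intro h
    exact Pool.Agent.Q93.DP.lv_of_ms (ι := ℕ) (F := fun N t => ‖D b N t‖) (N := fun N => N)
      (Ad := Admissible A) (A := A) (fun N W hW => hW.1) (fun N W hW => card_le hW) h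

/-- the configurations -/
abbrev X (A : ℝ) := {x : ℕ × Finset ℤ // Admissible A x.1 x.2}

/-- the points -/
noncomputable def pts {A : ℝ} (x : X A) : Finset ℝ := x.1.2.map ⟨Int.cast, Int.cast_injective⟩

/-- the majorant -/
noncomputable def g (A ε : ℝ) (x : X A) : ℝ :=
  (x.1.1 : ℝ) ^ ε * ((x.1.1 : ℝ) ^ 2 + (x.1.2.card : ℝ) * (x.1.1 : ℝ))

lemma ph_eq {A : ℝ} (b : ℕ → ℂ) (x : X A) :
    Pool.Agent.Q93.DP.Ph 2 (pts x) x.1.1 (2 * x.1.1) b = ∑ t ∈ x.1.2, ‖D b x.1.1 t‖ ^ 2 := by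
  unfold Pool.Agent.Q93.DP.Ph pts
  rw [Finset.sum_map]
  refine Finset.sum_congr rfl fun t _ => ?_
  rw [Real.rpow_two, D_eq]
  rfl

lemma bd_iff (A ε : ℝ) (b : ℕ → ℂ) :
    (∃ C : ℝ, ∀ (N : ℕ) (W : Finset ℤ), Admissible A N W →
      ∑ t ∈ W, ‖D b N t‖ ^ 2 ≤ C * ((N : ℝ) ^ ε * ((N : ℝ) ^ 2 + (W.card : ℝ) * (N : ℝ)))) ↔
    Pool.Agent.Q93.DP.Bd (fun x : X A => x.1.1) (fun x => 2 * x.1.1) pts (g A ε) 2 b := by
  constructor
  · rintro ⟨C, hC⟩
    refine ⟨C, fun x => ?_⟩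
    rw [ph_eq]
    exact hC x.1.1 x.1.2 x.2
  · rintro ⟨C, hC⟩
    refine ⟨C, fun N W h => ?_⟩
    have := hC ⟨(N, W), h⟩
    rw [ph_eq] at this
    exact this

lemma adm_ms (A : ℝ) : Pool.Agent.Q93.DP.Adm (MeanSquares A) := by
  have e : MeanSquares A = fun b => ∀ ε : ℝ, 0 < ε → Pool.Agent.Q93.DP.Bd (fun x : X A => x.1.1)
      (fun x => 2 * x.1.1) pts (g A ε) 2 b := by
    funext b
    apply propext
    unfold MeanSquares
    constructor
    · exact fun h ε hε => (bd_iff A ε b).1 (h ε hε)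
    · exact fun h ε hε => (bd_iff A ε b).2 (h ε hε)
  rw [e]
  apply Pool.Agent.Q93.DP.Adm.all (p := fun ε : ℝ => 0 < ε)
    (P := fun ε b => Pool.Agent.Q93.DP.Bd (fun x : X A => x.1.1) (fun x => 2 * x.1.1) pts
      (g A ε) 2 b)
  intro ε hε
  apply Pool.Agent.Q93.DP.adm_Bd _ _ _ _ (by norm_num)
  intro a ha
  rw [← bd_iff]
  obtain ⟨C, hC0, hC⟩ := Pool.Agent.Q93.DP.small_dyadic ha A ε hε
  refine ⟨C, fun N W hW => ?_⟩
  obtain ⟨hN, T, hT1, hT2, hWT⟩ := hW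
  have hpt : ∀ t ∈ W, ‖D a N t‖ ^ 2 ≤ C * ((N : ℝ) ^ ε * N) := by
    intro t ht
    rw [D_eq]
    apply hC N hN
    rw [abs_of_nonneg (hWT t ht).1]
    exact (hWT t ht).2.trans hT2
  have h1 := Finset.sum_le_card_nsmul W _ _ hpt
  rw [nsmul_eq_mul] at h1
  refine h1.trans ?_
  have h2 : 0 ≤ C * ((N : ℝ) ^ ε * (N : ℝ) ^ 2) := by positivity
  nlinarith

lemma adm_all : Pool.Agent.Q93.DP.Adm (fun b => ∀ A : ℝ, MeanSquares A b) :=
  ⟨fun a b ha hb A => (adm_ms A).add a b (ha A) (hb A),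
    fun c a ha A => (adm_ms A).smul c a (ha A), fun a ha A => (adm_ms A).small a ha⟩

lemma ind_norm (e : ℕ → Bool) (n : ℕ) : ‖ind e n‖ ≤ 1 := by
  unfold ind
  split_ifs <;> simp

/-- failure of the conjecture gives failure of a mean square bound for some `ε` -/
lemma not_ubd {A : ℝ} (h : ¬ MontgomeryAt A) : ∃ ε : ℝ, 0 < ε ∧
    ¬ Pool.Agent.Q93.DP.UBd (fun x : X A => x.1.1) (fun x => 2 * x.1.1) pts (g A ε) 2 := by
  by_contra hcon
  push Not at hcon
  apply h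
  have key := Pool.Agent.Q93.DP.lv_of_ms (ι := ℕ × {b : ℕ → ℂ // ∀ n, ‖b n‖ ≤ 1})
    (F := fun i t => ‖D i.2.1 i.1 t‖) (N := fun i => i.1) (Ad := fun i W => Admissible A i.1 W)
    (A := A) (fun i W hW => hW.1) (fun i W hW => card_le hW) ?_
  · intro σ hσ ε hε
    obtain ⟨C, hC⟩ := key σ hσ ε hε
    exact ⟨C, fun b hb N W hW hlv => hC (N, ⟨b, hb⟩) W hW hlv⟩
  · intro ε hε
    obtain ⟨C, hC⟩ := hcon ε hε
    refine ⟨C, fun i W hW => ?_⟩
    have := hC ⟨(i.1, W), hW⟩ i.2.1 i.2.2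
    rw [ph_eq] at this
    exact this

lemma g_pos (A ε : ℝ) (x : X A) : 0 < g A ε x := by
  have : (0 : ℝ) < x.1.1 := by exact_mod_cast x.2.1
  unfold g
  positivity

lemma card_g (A : ℝ) {ε : ℝ} (hε : 0 < ε) (x : X A) : 1 * ((pts x).card : ℝ) ≤ g A ε x := by
  have h1 : (1 : ℝ) ≤ x.1.1 := by exact_mod_cast x.2.1
  have h2 : (1 : ℝ) ≤ (x.1.1 : ℝ) ^ ε := Real.one_le_rpow h1 hε.le
  have h3 : (0 : ℝ) ≤ x.1.2.card := Nat.cast_nonneg _
  unfold g pts
  rw [Finset.card_map, one_mul]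
  calc (x.1.2.card : ℝ) = 1 * (x.1.2.card * 1) := by ring
    _ ≤ (x.1.1 : ℝ) ^ ε * ((x.1.1 : ℝ) ^ 2 + (x.1.2.card : ℝ) * (x.1.1 : ℝ)) := by
        apply mul_le_mul h2 _ (by positivity) (by positivity)
        have h4 : (x.1.2.card : ℝ) * 1 ≤ x.1.2.card * x.1.1 := mul_le_mul_of_nonneg_left h1 h3
        have h5 : 0 ≤ (x.1.1 : ℝ) ^ 2 := by positivity
        linarith

/-- category -/
lemma meagre_at {A : ℝ} (h : ¬ MontgomeryAt A) :
    IsMeagre {e : ℕ → Bool | AlongAt A (ind e)} := by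
  obtain ⟨ε, hε, hu⟩ := not_ubd h
  have hm := Pool.Agent.Q93.DP.meagre_of_not' (fun x : X A => x.1.1) (fun x => 2 * x.1.1) pts
    (g A ε) (q := 2) (by norm_num) (c := 1) (by norm_num) (g_pos A ε) (card_g A hε)
    (Y := fun _ => Bool) (fun _ b => if b then (1 : ℂ) else 0) (fun _ => continuous_of_discreteTopology)
    (δ := 1) (by norm_num) (fun _ => ⟨false, true, by norm_num⟩) hu
  refine hm.mono ?_
  intro e he
  have h1 := (ms_iff A _ (ind_norm e)).1 he ε hε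
  rw [bd_iff] at h1
  exact h1

lemma univ_not_meagre : ¬ IsMeagre (Set.univ : Set (ℕ → Bool)) :=
  not_isMeagre_of_isOpen isOpen_univ Set.univ_nonempty

lemma along_of {A : ℝ} (h : MontgomeryAt A) (b : ℕ → ℂ) (hb : ∀ n, ‖b n‖ ≤ 1) : AlongAt A b := by
  intro σ hσ ε hε
  obtain ⟨C, hC⟩ := h σ hσ ε hε
  exact ⟨C, hC b hb⟩

/-- dimension -/
lemma dim_at {A : ℝ} (h : ¬ MontgomeryAt A) :
    1 ≤ dimH {e : ℕ → Bool | ¬ AlongAt A (ind e)} := by
  obtain ⟨e0, he0⟩ : ∃ e0 : ℕ → Bool, ¬ AlongAt A (ind e0) := by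
    by_contra hcon
    push Not at hcon
    exact univ_not_meagre ((meagre_at h).mono fun e _ => hcon e)
  have e : {e : ℕ → Bool | ¬ AlongAt A (ind e)} =
      {e : ℕ → Bool | ¬ MeanSquares A (Pool.Agent.Q93.DP.ind e)} := by
    ext e
    exact not_congr (ms_iff A (ind e) (ind_norm e))
  rw [e]
  apply Pool.Agent.Q93.DP.dim_ind (adm_ms A) e0
  intro hc
  exact he0 ((ms_iff A (ind e0) (ind_norm e0)).2 hc)

theorem result :
    -- sets of integers: all exponents, and every single exponent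
    ((Montgomery ↔ ∀ e : ℕ → Bool, Along (ind e)) ∧
      (Montgomery ↔ ¬ IsMeagre {e : ℕ → Bool | Along (ind e)}) ∧
      (Montgomery ↔ dimH {e : ℕ → Bool | ¬ Along (ind e)} < 1)) ∧
    (∀ A : ℝ, (MontgomeryAt A ↔ ∀ e : ℕ → Bool, AlongAt A (ind e)) ∧
      (MontgomeryAt A ↔ ¬ IsMeagre {e : ℕ → Bool | AlongAt A (ind e)}) ∧
      (MontgomeryAt A ↔ dimH {e : ℕ → Bool | ¬ AlongAt A (ind e)} < 1)) ∧
    -- random sequences
    (∀ (Ω : Type) [MeasurableSpace Ω] (μ : Measure Ω) [IsProbabilityMeasure μ] (X : ℕ → Ω → ℂ),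
      (∀ n, Measurable (X n)) → iIndepFun X μ → (∀ n ω, ‖X n ω‖ ≤ 1) →
      (∀ A : ℝ, ∀ᵐ ω ∂μ, (AlongAt A (fun n => X n ω) ↔ AlongAt A (fun n => ∫ ω', X n ω' ∂μ))) ∧
      (∀ᵐ ω ∂μ, (Along (fun n => X n ω) ↔ Along (fun n => ∫ ω', X n ω' ∂μ))) ∧
      ((∀ n, ∫ ω', X n ω' ∂μ = 1 / 2) →
        ∀ᵐ ω ∂μ, (Along (fun n => X n ω) ↔ Along (fun _ => 1)))) ∧
    -- mean squares
    (∀ (A : ℝ) (b : ℕ → ℂ), (∀ n, ‖b n‖ ≤ 1) → (AlongAt A b ↔ MeanSquares A b)) := by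
  have hall_ms : ∀ b : ℕ → ℂ, (∀ n, ‖b n‖ ≤ 1) → (Along b ↔ ∀ A : ℝ, MeanSquares A b) :=
    fun b hb => forall_congr' fun A => ms_iff A b hb
  have hnot : ¬ Montgomery → ∃ A : ℝ, ¬ MontgomeryAt A := by
    intro h
    unfold Montgomery at h
    push Not at h
    exact h
  refine ⟨⟨⟨?_, ?_⟩, ⟨?_, ?_⟩, ⟨?_, ?_⟩⟩, fun A => ⟨⟨?_, ?_⟩, ⟨?_, ?_⟩, ⟨?_, ?_⟩⟩, ?_, ms_iff⟩
  · exact fun h e A => along_of (h A) _ (ind_norm e)
  · intro h
    by_contra hcon
    obtain ⟨A, hA⟩ := hnot hcon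
    exact univ_not_meagre ((meagre_at hA).mono fun e _ => h e A)
  · intro h hm
    exact univ_not_meagre (hm.mono fun e _ A => along_of (h A) _ (ind_norm e))
  · intro h
    by_contra hcon
    obtain ⟨A, hA⟩ := hnot hcon
    exact h ((meagre_at hA).mono fun e he => he A)
  · intro h
    have he : {e : ℕ → Bool | ¬ Along (ind e)} = ∅ := by
      rw [Set.eq_empty_iff_forall_notMem]
      exact fun e he => he fun A => along_of (h A) _ (ind_norm e)
    rw [he, dimH_empty]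
    exact one_pos
  · intro h
    by_contra hcon
    obtain ⟨A, hA⟩ := hnot hcon
    have h1 := (dim_at hA).trans (dimH_mono (t := {e : ℕ → Bool | ¬ Along (ind e)})
      fun e he hc => he (hc A))
    exact absurd h (not_lt.2 h1)
  · exact fun h e => along_of h _ (ind_norm e)
  · intro h
    by_contra hcon
    exact univ_not_meagre ((meagre_at hcon).mono fun e _ => h e)
  · intro h hm
    exact univ_not_meagre (hm.mono fun e _ => along_of h _ (ind_norm e))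
  · intro h
    by_contra hcon
    exact h (meagre_at hcon)
  · intro h
    have he : {e : ℕ → Bool | ¬ AlongAt A (ind e)} = ∅ := by
      rw [Set.eq_empty_iff_forall_notMem]
      exact fun e he => he (along_of h _ (ind_norm e))
    rw [he, dimH_empty]
    exact one_pos
  · intro h
    by_contra hcon
    exact absurd h (not_lt.2 (dim_at hcon))
  · intro Ω _ μ _ X hm hi hb
    have hmean : ∀ n, ‖∫ ω', X n ω' ∂μ‖ ≤ 1 := by
      intro n
      have := norm_integral_le_of_norm_le_const (μ := μ) (f := X n) (C := 1) (ae_of_all _ (hb n))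
      simpa using this
    refine ⟨fun A => ?_, ?_, fun hhalf => ?_⟩
    · filter_upwards [Pool.Agent.Q93.DP.as_iff (adm_ms A) hm hi hb] with ω hω
      rw [ms_iff A _ (fun n => hb n ω), ms_iff A _ hmean]
      exact hω
    · filter_upwards [Pool.Agent.Q93.DP.as_iff adm_all hm hi hb] with ω hω
      rw [hall_ms _ (fun n => hb n ω), hall_ms _ hmean]
      exact hω
    · filter_upwards [Pool.Agent.Q93.DP.as_iff adm_all hm hi hb] with ω hω
      rw [hall_ms _ (fun n => hb n ω), hall_ms _ (fun _ => by simp)]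
      rw [hω]
      simp only [hhalf]
      constructor
      · intro h
        have h2 := adm_all.smul 2 _ h
        refine cast ?_ h2
        norm_num
      · intro h
        have h2 := adm_all.smul (1 / 2) _ h
        refine cast ?_ h2
        norm_num

end Pool.Agent.Results.MP_ecd12e_nt.SetsOfIntegers
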